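import Mathlib
import Pool.Agent.Q259.Gamma
import Pool.Agent.Q137.GT.Few

/-!
# The smallest graceful tree containing a tree with few non-leaves

A tree with `k ≥ 1` non-leaves and at least `4 * 10 ^ 21 * k ^ 6` edges is graceful, so that
`γ(T) = |E(T)|`.
-/

set_option autoImplicit false

namespace Pool.Agent.Results.MP_128071_co.FewNonLeaves

open Pool.Agent.Q259.Gamma

/-- If a finite tree `T` has `k ≥ 1` vertices of degree at least two and at least
`4 * 10 ^ 21 * k ^ 6` edges, then `T` is graceful and `γ(T) = |E(T)|`; the minimum `γ(T)` is attained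
by `T` itself. -/
theorem result (V : Type) [Fintype V] (T : SimpleGraph V) (hT : T.IsTree) (k : ℕ)
    (hk : {w : V | 2 ≤ (T.neighborSet w).ncard}.ncard = k) (hk1 : 1 ≤ k)
    (hm : 4 * 10 ^ 21 * k ^ 6 ≤ T.edgeSet.ncard) :
    Graceful T ∧ T.edgeSet.ncard ∈ gracefulSizes T ∧ gamma T = T.edgeSet.ncard := by
  have hg : Graceful T := Pool.Agent.Q137.GT.few T hT k hk hk1 hm
  exact ⟨hg, gamma_eq hT hg⟩

end Pool.Agent.Results.MP_128071_co.FewNonLeaves
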