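import Mathlib
import Pool.Agent.Q259.Gamma
import Pool.Agent.W116.GT.Fin

/-!
# The smallest graceful tree containing a given tree: a vertex with many leaves and many non-leaves

For every `ε > 0` all but finitely many trees `T` in which some vertex is adjacent to at least `ε |E(T)|`
leaves and to at least `ε |E(T)|` non-leaves are graceful, so that `γ(T) = |E(T)|`.

The proof of gracefulness is the theorem `Pool.Agent.W116.GT.main` of the starting files, which no file with
results uses there.
-/

set_option autoImplicit false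

namespace Pool.Agent.Results.MP_128071_co.HeavyVertex

open Pool.Agent.Q259.Gamma

/-- For every `ε > 0` there is `m₀` such that for every finite tree `T` with at least `m₀` edges and a vertex
`v` which has at least `ε |E(T)|` neighbours of degree one and at least `ε |E(T)|` neighbours of degree at
least two, `T` is graceful and `γ(T) = |E(T)|`; the minimum `γ(T)` is attained by `T` itself. -/
theorem result (ε : ℝ) (hε : 0 < ε) : ∃ m₀ : ℕ,
    ∀ (V : Type) [Fintype V] (T : SimpleGraph V), T.IsTree → m₀ ≤ T.edgeSet.ncard → ∀ v : V,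
    ε * (T.edgeSet.ncard : ℝ) ≤ ({w : V | T.Adj v w ∧ (T.neighborSet w).ncard = 1}.ncard : ℝ) →
    ε * (T.edgeSet.ncard : ℝ) ≤ ({w : V | T.Adj v w ∧ 2 ≤ (T.neighborSet w).ncard}.ncard : ℝ) →
    Graceful T ∧ T.edgeSet.ncard ∈ gracefulSizes T ∧ gamma T = T.edgeSet.ncard := by
  obtain ⟨m₀, h⟩ := Pool.Agent.W116.GT.main ε hε
  refine ⟨m₀, fun V _ T hT hm v h1 h2 => ?_⟩
  have hg : Graceful T := h V T hT hm v h1 h2
  exact ⟨hg, gamma_eq hT hg⟩

end Pool.Agent.Results.MP_128071_co.HeavyVertex
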