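import Mathlib
import Pool.Agent.Q259.Gamma
import Pool.Agent.W321.SP.Fin

/-!
# The smallest graceful tree containing a spider with many legs of length one

Let `T` be a spider with `m` edges, `l₁` legs of length one and `l₂` longer legs.  If
`10^12 l₂ m^4 ≤ l₁^5` and `10^15 m^6 ≤ l₁^7`, then `T` is graceful, so that `γ(T) = |E(T)|`.

The proof of gracefulness is the theorem `Pool.Agent.W321.SP.spider` of the starting files, which no file
with results uses there.
-/

set_option autoImplicit false

namespace Pool.Agent.Results.MP_128071_co.ManyShortLegs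

open Pool.Agent.Q259.Gamma

/-- Let `T` be a finite tree and `v` a vertex such that all the other vertices have degree at most two (a
spider), `m = |E(T)|`, let `l₁` be the number of neighbours of `v` of degree one and `l₂` the number of
neighbours of `v` of degree two.  If `10^12 l₂ m^4 ≤ l₁^5` and `10^15 m^6 ≤ l₁^7`, then `T` is graceful and
`γ(T) = |E(T)|`; the minimum `γ(T)` is attained by `T` itself. -/
theorem result (V : Type) [Fintype V] (T : SimpleGraph V) (hT : T.IsTree) (v : V)
    (hdeg : ∀ x, x ≠ v → (T.neighborSet x).ncard ≤ 2)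
    (h1 : 10 ^ 12 * {w : V | T.Adj v w ∧ (T.neighborSet w).ncard = 2}.ncard * T.edgeSet.ncard ^ 4 ≤
      {w : V | T.Adj v w ∧ (T.neighborSet w).ncard = 1}.ncard ^ 5)
    (h2 : 10 ^ 15 * T.edgeSet.ncard ^ 6 ≤ {w : V | T.Adj v w ∧ (T.neighborSet w).ncard = 1}.ncard ^ 7) :
    Graceful T ∧ T.edgeSet.ncard ∈ gracefulSizes T ∧ gamma T = T.edgeSet.ncard := by
  have hg : Graceful T := Pool.Agent.W321.SP.spider V T hT v hdeg h1 h2
  exact ⟨hg, gamma_eq hT hg⟩

end Pool.Agent.Results.MP_128071_co.ManyShortLegs
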