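import Mathlib
import Pool.Agent.Q259.Gamma
import Pool.Agent.Q137.GT.Near

/-!
# The smallest graceful tree containing a tree with a vertex adjacent to almost all vertices

If a tree `T` has a vertex which is adjacent to all but a proportion `10 ^ (-18)` of the vertices
then `T` is graceful, so that `γ(T) = |E(T)|`.
-/

set_option autoImplicit false

namespace Pool.Agent.Results.MP_128071_co.NearStars

open Pool.Agent.Q259.Gamma

/-- If `T` is a finite tree with `m` edges and `v` a vertex such that at most `10 ^ (-18) * m`
vertices different from `v` are not adjacent to `v`, then `T` is graceful and `γ(T) = |E(T)|`; the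
minimum `γ(T)` is attained by `T` itself. -/
theorem result (V : Type) [Fintype V] (T : SimpleGraph V) (hT : T.IsTree) (v : V)
    (h : 10 ^ 18 * {x : V | x ≠ v ∧ ¬ T.Adj v x}.ncard ≤ T.edgeSet.ncard) :
    Graceful T ∧ T.edgeSet.ncard ∈ gracefulSizes T ∧ gamma T = T.edgeSet.ncard := by
  have hg : Graceful T := Pool.Agent.Q137.GT.near T hT v h
  exact ⟨hg, gamma_eq hT hg⟩

end Pool.Agent.Results.MP_128071_co.NearStars
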